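import Pool.Agent.L7h75.HP.Drift

/-!
# Project HP (MP_7e57c2_pr): the total mass of one step
-/

set_option autoImplicit false

open Finset Filter Topology

namespace Pool.Agent.L7h37.HP

open Pool.Agent.L7h7.HP Pool.Agent.L7h75.HP

/-- the sum of the weights without the factors -/
theorem w0_total {π φ : Fin 2 → ℝ} {κ Φ : ℝ} (hl : Lab π φ κ Φ) {ρ n : ℝ} (hρ : 0 < ρ) (hn : 0 < n)
    {I : Type} [Fintype I] (d : I → ℝ) (f f' : I → Fin 2) (hds : ∑ v, d v = 2 * n) (j j' : Fin 2) :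
    ∑ x, w0 φ ρ (2 * n + 1 + ρ) d f f' j j' x =
      1 + ρ * φ j * ((κ + vec φ d f f' 0) / (2 * n + 1 + ρ)) + ρ * φ j' * ((κ + vec φ d f f' 1) / (2 * n + 1 + ρ)) +
      ρ ^ 2 * φ j * φ j' * ((vec φ d f f' 2 + κ ^ 2 / (1 + ρ)) / (2 * n + 1 + ρ)) := by
  have hm : 0 < 2 * n + 1 + ρ := by positivity
  set m := 2 * n + 1 + ρ with hmdef
  have v0 : vec φ d f f' 0 = ∑ v, d v * φ (f v) := rfl
  have v1 : vec φ d f f' 1 = ∑ v, d v * φ (f' v) := rfl
  have v2 : vec φ d f f' 2 = ∑ v, d v * (φ (f v) * φ (f' v)) := rfl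
  rw [Fintype.sum_option]
  have e1 : ∑ v, w0 φ ρ m d f f' j j' (some v) =
      1 / m * (2 * n + ρ * φ j * vec φ d f f' 0 + ρ * φ j' * vec φ d f f' 1 +
        ρ ^ 2 * φ j * φ j' * vec φ d f f' 2) := by
    rw [v0, v1, v2, ← hds, mul_sum, mul_sum, mul_sum, ← sum_add_distrib, ← sum_add_distrib, ← sum_add_distrib,
      mul_sum]
    refine sum_congr rfl fun v _ => ?_
    unfold w0
    ring
  have e2 : w0 φ ρ m d f f' j j' none = 1 / m * ((1 + ρ) + ρ * κ * φ j + ρ * κ * φ j' +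
      ρ ^ 2 * κ ^ 2 * φ j * φ j' / (1 + ρ)) := by
    unfold w0
    rw [hl.quad j, hl.quad j']
    have : 1 + ρ ≠ 0 := by positivity
    field_simp
    ring
  rw [e1, e2]
  have : 1 + ρ ≠ 0 := by positivity
  field_simp
  rw [hmdef]
  ring

theorem cube_add (a M : ℝ) (ha : 0 ≤ a) (hM : 0 ≤ M) : (a + M) ^ 3 ≤ 4 * (a ^ 3 + M ^ 3) := by
  nlinarith [mul_nonneg (add_nonneg ha hM) (sq_nonneg (a - M))]

theorem amgm3 (x y z : ℝ) (hx : 0 ≤ x) (hy : 0 ≤ y) (hz : 0 ≤ z) : x * y * z ≤ (x ^ 3 + y ^ 3 + z ^ 3) / 3 := by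
  nlinarith [mul_nonneg (add_nonneg (add_nonneg hx hy) hz)
    (add_nonneg (add_nonneg (sq_nonneg (x - y)) (sq_nonneg (y - z))) (sq_nonneg (x - z)))]

theorem s_MASS : S_MASS := by
  intro Φ hΦ
  have hΦ0 : 0 < Φ := by linarith
  refine ⟨1 / (4 * Φ ^ 2), 1200 * Φ ^ 7, by positivity, ?_, ?_⟩
  · have : 1 ≤ Φ ^ 7 := one_le_pow₀ hΦ
    linarith
  intro π φ κ hl ρ hρ hρ0 n hn I _ d f f' hd hds
  have hn1 : (1 : ℝ) ≤ n := by exact_mod_cast hn
  have hn0 : (0 : ℝ) < n := by linarith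
  have hΦ2 : 1 ≤ Φ ^ 2 := one_le_pow₀ hΦ
  have hρ1 : ρ * Φ ^ 2 ≤ 1 / 4 := by
    rw [le_div_iff₀ (by positivity)] at hρ0
    linarith
  have hρle : ρ ≤ 1 / 4 := by nlinarith
  have hbd : ∀ (g : I → ℝ) (B : ℝ), (∀ v, |g v| ≤ B) → |∑ v, d v * g v| ≤ 2 * n * B := by
    intro g B hg
    refine (abs_sum_le_sum_abs _ _).trans ?_
    have h1 : ∀ v ∈ (univ : Finset I), |d v * g v| ≤ d v * B := by
      intro v _
      rw [abs_mul, abs_of_nonneg (hd v)]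
      exact mul_le_mul_of_nonneg_left (hg v) (hd v)
    refine (sum_le_sum h1).trans ?_
    rw [← sum_mul, hds]
  have hS : |vec φ d f f' 0| ≤ 2 * n * Φ := hbd _ _ fun v => hl.bd _
  have hS' : |vec φ d f f' 1| ≤ 2 * n * Φ := hbd _ _ fun v => hl.bd _
  have hsum3 : ∑ k', |vec φ d f f' k'| ^ 3 = |vec φ d f f' 0| ^ 3 + |vec φ d f f' 1| ^ 3 +
      |vec φ d f f' 2| ^ 3 := Fin.sum_univ_three _
  have hw := fun j j' => w0_total hl hρ hn0 d f f' hds j j'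
  have hm0 : (0 : ℝ) < 2 * n + 1 + ρ := by positivity
  have hP := fun j => fac_bd (φ := φ j) (m := 2 * n + 1 + ρ) hρ hρ1 hΦ hn1 (by linarith) hl.kbd hS (hl.bd j)
  have hQ := fun j => fac_bd (φ := φ j) (m := 2 * n + 1 + ρ) hρ hρ1 hΦ hn1 (by linarith) hl.kbd hS' (hl.bd j)
  rw [hsum3]
  simp only [wtt_eq]
  simp_rw [← mul_sum]
  simp_rw [hw]
  set S := vec φ d f f' 0 with hSdef
  set S' := vec φ d f f' 1 with hS'def
  set O := vec φ d f f' 2 with hOdef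
  set m := 2 * (n : ℝ) + 1 + ρ with hmdef
  set s := (κ + S) / m with hs
  set s' := (κ + S') / m with hs'
  set o := (O + κ ^ 2 / (1 + ρ)) / m with ho
  have hPs : ∀ j, m / (m + ρ * φ j * (κ + S)) * (1 + ρ * φ j * s) = 1 := by
    intro j
    have h1 := (hP j).1
    have h2 : m + ρ * φ j * (κ + S) ≠ 0 := by
      intro h0
      rw [h0, div_zero] at h1
      exact lt_irrefl _ h1
    rw [hs]
    field_simp
  have hQs : ∀ j, m / (m + ρ * φ j * (κ + S')) * (1 + ρ * φ j * s') = 1 := by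
    intro j
    have h1 := (hQ j).1
    have h2 : m + ρ * φ j * (κ + S') ≠ 0 := by
      intro h0
      rw [h0, div_zero] at h1
      exact lt_irrefl _ h1
    rw [hs']
    field_simp
  have hP1 : ∀ j, 0 < m / (m + ρ * φ j * (κ + S)) ∧ m / (m + ρ * φ j * (κ + S)) ≤ 2 :=
    fun j => ⟨(hP j).1, (hP j).2.1⟩
  have hQ1 : ∀ j, 0 < m / (m + ρ * φ j * (κ + S')) ∧ m / (m + ρ * φ j * (κ + S')) ≤ 2 :=
    fun j => ⟨(hQ j).1, (hQ j).2.1⟩
  generalize hPdef : (fun j => m / (m + ρ * φ j * (κ + S))) = P at *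
  generalize hQdef : (fun j => m / (m + ρ * φ j * (κ + S'))) = Q at *
  have eP : ∀ j, m / (m + ρ * φ j * (κ + S)) = P j := fun j => congrFun hPdef j
  have eQ : ∀ j, m / (m + ρ * φ j * (κ + S')) = Q j := fun j => congrFun hQdef j
  simp only [eP, eQ] at hPs hQs hP1 hQ1 ⊢
  -- the exact formula
  have hf : ∀ (P : Fin 2 → ℝ) (s : ℝ), (∀ j, P j * (1 + ρ * φ j * s) = 1) → (∀ j, 0 < P j ∧ P j ≤ 2) →
      |∑ j, π j * φ j * P j| ≤ 2 * ρ * |s| := by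
    intro P s h1 h2
    have e1 : ∑ j, π j * φ j * P j = -(ρ * s) * ∑ j, π j * φ j ^ 2 * P j := by
      have h0 := hl.mean
      have a0 := h1 0
      have a1 := h1 1
      rw [Fin.sum_univ_two] at h0 ⊢
      rw [Fin.sum_univ_two]
      linear_combination (π 0 * φ 0) * a0 + (π 1 * φ 1) * a1 + h0
    have e2 : |∑ j, π j * φ j ^ 2 * P j| ≤ 2 := by
      have h3 := hl.var
      rw [Fin.sum_univ_two] at h3 ⊢
      have b0 : 0 ≤ π 0 * φ 0 ^ 2 := mul_nonneg (hl.nn 0) (sq_nonneg _)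
      have b1 : 0 ≤ π 1 * φ 1 ^ 2 := mul_nonneg (hl.nn 1) (sq_nonneg _)
      have c0 := mul_le_mul_of_nonneg_left (h2 0).2 b0
      have c1 := mul_le_mul_of_nonneg_left (h2 1).2 b1
      have d0 := mul_nonneg b0 (h2 0).1.le
      have d1 := mul_nonneg b1 (h2 1).1.le
      rw [abs_of_nonneg (by linarith)]
      linarith
    rw [e1, abs_mul, abs_neg, abs_mul, abs_of_pos hρ]
    have : ρ * |s| * |∑ j, π j * φ j ^ 2 * P j| ≤ ρ * |s| * 2 :=
      mul_le_mul_of_nonneg_left e2 (by positivity)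
    linarith
  have key : ∑ j, ∑ j', π j * π j' * (P j * Q j') * (1 + ρ * φ j * s + ρ * φ j' * s' + ρ ^ 2 * φ j * φ j' * o) - 1 =
      ρ ^ 2 * (o - s * s') * ((∑ j, π j * φ j * P j) * ∑ j, π j * φ j * Q j) := by
    have e3 : ∀ j j', π j * π j' * (P j * Q j') *
        (1 + ρ * φ j * s + ρ * φ j' * s' + ρ ^ 2 * φ j * φ j' * o) =
        π j * π j' + ρ ^ 2 * (o - s * s') * ((π j * φ j * P j) * (π j' * φ j' * Q j')) := by
      intro j j'
      have a := hPs j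
      have b := hQs j'
      linear_combination (π j * π j' * (Q j' * (1 + ρ * φ j' * s'))) * a + (π j * π j') * b
    simp only [e3]
    have h1 := hl.sum
    simp only [Fin.sum_univ_two] at h1 ⊢
    linear_combination (π 0 + π 1 + 1) * h1
  rw [key]
  have hF := hf P s hPs hP1
  have hG := hf Q s' hQs hQ1
  have hFG : |(∑ j, π j * φ j * P j) * ∑ j, π j * φ j * Q j| ≤ 4 * ρ ^ 2 * (|s| * |s'|) := by
    rw [abs_mul]
    calc |∑ j, π j * φ j * P j| * |∑ j, π j * φ j * Q j| ≤ (2 * ρ * |s|) * (2 * ρ * |s'|) :=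
          mul_le_mul hF hG (abs_nonneg _) (by positivity)
      _ = _ := by ring
  -- sizes
  set M := 4 * Φ ^ 2 with hM
  have hM0 : 0 ≤ M := by positivity
  have hκM : |κ| ≤ M := by
    have := hl.kbd
    nlinarith
  have hκ2 : κ ^ 2 / (1 + ρ) ≤ M := by
    rw [div_le_iff₀ (by positivity)]
    have : κ ^ 2 ≤ (2 * Φ) ^ 2 := by rw [← sq_abs]; exact pow_le_pow_left₀ (abs_nonneg _) hl.kbd 2
    nlinarith
  have hκ20 : 0 ≤ κ ^ 2 / (1 + ρ) := by positivity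
  set x := |S| + M with hx
  set y := |S'| + M with hy
  set z := |O| + M with hz
  have hx0 : 0 ≤ x := by positivity
  have hy0 : 0 ≤ y := by positivity
  have hz0 : 0 ≤ z := by positivity
  have hdiv : ∀ (a b : ℝ), |a| ≤ b → |a / m| ≤ b / (2 * n) := by
    intro a b hab
    rw [abs_div, abs_of_pos hm0]
    exact div_le_div₀ ((abs_nonneg _).trans hab) hab (by positivity) (by linarith)
  have hs1 : |s| ≤ x / (2 * n) := hdiv _ _ ((abs_add_le _ _).trans (by linarith))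
  have hs1' : |s'| ≤ y / (2 * n) := hdiv _ _ ((abs_add_le _ _).trans (by linarith))
  have ho1 : |o| ≤ z / (2 * n) := by
    apply hdiv
    refine (abs_add_le _ _).trans ?_
    rw [abs_of_nonneg hκ20]
    linarith
  have hs2 : |s'| ≤ 2 * Φ := by
    rw [hs', abs_div, abs_of_pos hm0, div_le_iff₀ hm0]
    have h1 := abs_add_le κ S'
    have h2 := hl.kbd
    nlinarith
  have hprod : |s| * |s'| * (|o| + |s| * |s'|) ≤ 288 * Φ ^ 7 * (|S| ^ 3 + |S'| ^ 3 + |O| ^ 3 + 1) / n ^ 3 := by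
    have a1 : |s| * |s'| * |o| ≤ x * y * z / (8 * n ^ 3) := by
      calc |s| * |s'| * |o| ≤ x / (2 * n) * (y / (2 * n)) * (z / (2 * n)) := by gcongr
        _ = _ := by field_simp; ring
    have a2 : |s| * |s'| * (|s| * |s'|) ≤ 2 * Φ * (x * x * y) / (8 * n ^ 3) := by
      calc |s| * |s'| * (|s| * |s'|) = |s| * |s| * |s'| * |s'| := by ring
        _ ≤ x / (2 * n) * (x / (2 * n)) * (y / (2 * n)) * (2 * Φ) := by gcongr
        _ = _ := by field_simp; ring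
    have b1 := amgm3 x y z hx0 hy0 hz0
    have b2 := amgm3 x x y hx0 hx0 hy0
    have c1 := cube_add |S| M (abs_nonneg _) hM0
    have c2 := cube_add |S'| M (abs_nonneg _) hM0
    have c3 := cube_add |O| M (abs_nonneg _) hM0
    rw [← hx] at c1
    rw [← hy] at c2
    rw [← hz] at c3
    have x3 : 0 ≤ x ^ 3 := by positivity
    have y3 : 0 ≤ y ^ 3 := by positivity
    have z3 : 0 ≤ z ^ 3 := by positivity
    set T := |S| ^ 3 + |S'| ^ 3 + |O| ^ 3 with hT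
    have hT0 : 0 ≤ T := by positivity
    have d1 : x * y * z + 2 * Φ * (x * x * y) ≤ 3 * Φ * (x ^ 3 + y ^ 3 + z ^ 3) := by
      have e1 : x * y * z ≤ Φ * (x ^ 3 + y ^ 3 + z ^ 3) := by nlinarith
      have e2 : x * x * y ≤ x ^ 3 + y ^ 3 + z ^ 3 := by linarith
      have e3 : 2 * Φ * (x * x * y) ≤ 2 * Φ * (x ^ 3 + y ^ 3 + z ^ 3) :=
        mul_le_mul_of_nonneg_left e2 (by positivity)
      linarith
    have d2 : x ^ 3 + y ^ 3 + z ^ 3 ≤ 4 * T + 12 * M ^ 3 := by rw [hT]; linarith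
    have d3 : M ^ 3 = 64 * Φ ^ 6 := by rw [hM]; ring
    have hΦ6 : 1 ≤ Φ ^ 6 := one_le_pow₀ hΦ
    have d4 : 4 * T + 12 * M ^ 3 ≤ 768 * Φ ^ 6 * (T + 1) := by
      rw [d3]
      nlinarith
    have d5 : x * y * z + 2 * Φ * (x * x * y) ≤ 2304 * Φ ^ 7 * (T + 1) := by
      calc x * y * z + 2 * Φ * (x * x * y) ≤ 3 * Φ * (x ^ 3 + y ^ 3 + z ^ 3) := d1
        _ ≤ 3 * Φ * (768 * Φ ^ 6 * (T + 1)) := by
            apply mul_le_mul_of_nonneg_left (d2.trans d4) (by positivity)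
        _ = _ := by ring
    have e : |s| * |s'| * (|o| + |s| * |s'|) = |s| * |s'| * |o| + |s| * |s'| * (|s| * |s'|) := by ring
    rw [e]
    calc |s| * |s'| * |o| + |s| * |s'| * (|s| * |s'|) ≤
          x * y * z / (8 * n ^ 3) + 2 * Φ * (x * x * y) / (8 * n ^ 3) := add_le_add a1 a2
      _ = (x * y * z + 2 * Φ * (x * x * y)) / (8 * n ^ 3) := by ring
      _ ≤ 2304 * Φ ^ 7 * (T + 1) / (8 * n ^ 3) := by gcongr
      _ = _ := by field_simp; ring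
  rw [abs_mul, abs_mul, abs_of_nonneg (sq_nonneg ρ)]
  have hos : |o - s * s'| ≤ |o| + |s| * |s'| := by
    refine (abs_sub _ _).trans ?_
    rw [abs_mul]
  have hρ4 : ρ ^ 4 ≤ ρ ^ 2 := pow_le_pow_of_le_one hρ.le (by linarith) (by norm_num)
  have hT0 : 0 ≤ |S| ^ 3 + |S'| ^ 3 + |O| ^ 3 + 1 := by positivity
  calc ρ ^ 2 * |o - s * s'| * |(∑ j, π j * φ j * P j) * ∑ j, π j * φ j * Q j|
      ≤ ρ ^ 2 * (|o| + |s| * |s'|) * (4 * ρ ^ 2 * (|s| * |s'|)) :=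
        mul_le_mul (mul_le_mul_of_nonneg_left hos (sq_nonneg ρ)) hFG (abs_nonneg _) (by positivity)
    _ = 4 * ρ ^ 4 * (|s| * |s'| * (|o| + |s| * |s'|)) := by ring
    _ ≤ 4 * ρ ^ 2 * (288 * Φ ^ 7 * (|S| ^ 3 + |S'| ^ 3 + |O| ^ 3 + 1) / n ^ 3) := by gcongr
    _ = 1152 * Φ ^ 7 * ρ ^ 2 * (|S| ^ 3 + |S'| ^ 3 + |O| ^ 3 + 1) / n ^ 3 := by ring
    _ ≤ 1200 * Φ ^ 7 * ρ ^ 2 * (|S| ^ 3 + |S'| ^ 3 + |O| ^ 3 + 1) / n ^ 3 := by gcongr; norm_num

end Pool.Agent.L7h37.HP
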